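import Pool.Agent.Y233.OI.Main

/-!
# Projective dimension along finitely generated FI-modules, over every field

For every field `K` (in particular of characteristic zero) and every `c ≥ 1` there is a finitely
generated FI-module `M` over `P = (X^{FI,1})^{⊗ c}`, finitely generated also as an OI-module,
with `M_n ≠ 0` for all `n ≥ 1`, such that `n ↦ pd_{P_n} M_n` is not eventually a linear function
`A n + B`: it is at least `c n` for infinitely many `n` and less than `c n` for infinitely many `n`.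

Let `q_j = x_{1,j} (x_{1,j} - 1)` and `S_j = α + (β - α) x_{1,j}`.  The module `M_n` has
generators `e_i, h_j` (`i, j ∈ [n]`) and lives on the union of the lines parallel to the first-row
coordinate axes through the points of `{0,1}^n`; at a point `w ∈ {0,1}^n` it has a socle if and
only if `1 + ∑_j S_j(w) = 0`.  In characteristic zero one takes `(α, β) = (1, -1)`: this happens for
some `w` exactly when `n` is odd.  In characteristic `p` one takes `α = β = -1`.  So
`pd M_n ≥ c n` for infinitely many `n` and `pd M_n ≤ c n - 1` for infinitely many `n`.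
-/

open MvPolynomial CategoryTheory Abelian Pool.Agent.Y233.OI

universe u

namespace Pool.Agent.Results.MP_a29b63_ag.NonzeroFIAnyField

/-- The modules are not zero. -/
theorem nontriv {K : Type u} [Field K] (c : ℕ) [NeZero c] (α β : K) (n : ℕ) (hn : 1 ≤ n) :
    Nontrivial (MM c α β n) := by
  refine ⟨⟨Submodule.Quotient.mk (fun _ => 1, fun _ => 0), 0, fun h0 => ?_⟩⟩
  rw [Submodule.Quotient.mk_eq_zero, mem_W] at h0
  have h1 := eval_I (pt K c n 0) (fam K c n) Set.univ (by
    intro a _
    unfold fam pt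
    by_cases h : a.1 = 0
    · simp [h]
    · simp [h]) _ (h0.1 ⟨0, hn⟩)
  simp at h1

theorem result (K : Type u) [Field K] (c : ℕ) (hc : 1 ≤ c) :
    ∃ M : FIModule K c, M.FG ∧ M.toOI.FG ∧
      (∀ n : ℕ, 1 ≤ n → Nontrivial (M.obj n)) ∧
      (∀ N : ℕ, ∃ n ≥ N, ((c * n : ℕ) : WithBot ℕ∞) ≤ M.pd n) ∧
      (∀ N : ℕ, ∃ n ≥ N, M.pd n < ((c * n : ℕ) : WithBot ℕ∞)) ∧
      ¬ EventuallyLinear M.pd ∧ ¬ EventuallyLinear M.toOI.pd := by
  have : NeZero c := ⟨by omega⟩
  obtain ⟨α, β, hα, hβ, h1, h2⟩ := exists_params K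
  have hmain : ¬ EventuallyLinear (mod c α β).pd := by
    refine not_linear _ ?_ ?_
    · intro N
      obtain ⟨n, hn, hn1, hb⟩ := h1 N
      exact ⟨n, hn, pd_bad c α β hα hβ n hn1 hb⟩
    · intro N
      obtain ⟨n, hn, hn1, hb⟩ := h2 N
      exact ⟨n, hn, pd_good c α β n hn1 hb⟩
  refine ⟨mod c α β, FIModule.fg_of_toOI _ (mod_fg c α β), mod_fg c α β,
    fun n hn => nontriv c α β n hn, ?_, ?_, hmain, hmain⟩
  · intro N
    obtain ⟨n, hn, hn1, hb⟩ := h1 N
    refine ⟨n, hn, ?_⟩
    by_contra hlt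
    rw [not_le] at hlt
    exact pd_bad c α β hα hβ n hn1 hb ((projectiveDimension_lt_iff).1 hlt)
  · intro N
    obtain ⟨n, hn, hn1, hb⟩ := h2 N
    exact ⟨n, hn, (projectiveDimension_lt_iff).2 (pd_good c α β n hn1 hb)⟩

end Pool.Agent.Results.MP_a29b63_ag.NonzeroFIAnyField
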